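import Pool.Agent.Lib_MP_9788a7_an.Final

/-!
# A non-standard invariant subspace of rank two

For every `1 ≤ p < ∞` the two discs `A = {|z - i| < √2}` and `B = {|z + i| < √2}` carry a closed
subspace `E` of `E^p(A) ⊕ E^p(B)`, invariant under `M_{R₀}`, with `r_E = 2` on `A ∩ B` and
`E ≠ St(E)`. The definitions (`Dom`, `Smirnov`, `opM`, `rankFn`, `standard`) are in
`Pool.Agent.Lib_MP_9788a7_an.Defs`.
-/

open Set Metric Complex MP9788a7
open scoped ENNReal

namespace Pool.Agent.Results.MP_9788a7_an.RankTwoNonStandard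

theorem result (p : ℝ≥0∞) [Fact (1 ≤ p)] (hp : p ≠ ∞) :
    ∃ A B C : Dom, A.carrier = ball I (√2) ∧ B.carrier = ball (-I) (√2) ∧
      C.carrier = A.carrier ∩ B.carrier ∧
      frontier A.carrier ∩ frontier B.carrier = {1, -1} ∧
      ∃ E : Submodule ℂ (EP A B p), IsLat (opM A B p) E ∧
        (∀ lam ∈ C.carrier, rankFn (opM A B p) E lam = 2) ∧
        ∃ f ∈ standard C E, f ∉ E :=
  ⟨dA, dB, lens, rfl, rfl, rfl, frontier_inter, EE p hp, EE_lat p hp,
    fun _ hlam => rank_two p hp hlam.1 hlam.2, oneAB p hp, one_standard p hp, one_notMem p hp⟩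

end Pool.Agent.Results.MP_9788a7_an.RankTwoNonStandard
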